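import Pool.Agent.Lib.MP_5a3ebe_gt.ApWin
import Pool.Agent.Lib.MP_5a3ebe_gt.ApPoly
import Pool.Agent.Lib.MP_5a3ebe_gt.ApFinal

open Pool.Agent.Lib.MP_5a3ebe_gt.Ap in
theorem Pool.Agent.Results.MP_5a3ebe_gt.ApproxSquares.result
    (γ : Circle → ℂ) (hc : Continuous γ) (hi : Function.Injective γ) (ε : ℝ) (hε : 0 < ε) :
    ∃ p1 ∈ Set.range γ, ∃ p2 ∈ Set.range γ, ∃ p3 ∈ Set.range γ, ∃ p4 ∈ Set.range γ, ∃ w : ℂ,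
      w ≠ 0 ∧ ‖p2 - p1 - w‖ ≤ ε * ‖w‖ ∧ ‖p3 - p1 - w - Complex.I * w‖ ≤ ε * ‖w‖ ∧
        ‖p4 - p1 - Complex.I * w‖ ≤ ε * ‖w‖ :=
  final_of_core core (fun _ _ D G C Δ => D.exists_lev G C Δ)
    (fun _ _ z h X => poly_good z h X) γ hc hi ε hε
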