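import Pool.Agent.Lib.MP_5a3ebe_gt.TubeSquare

set_option autoImplicit false

namespace Pool.Agent.Results.MP_5a3ebe_gt.CurvatureTube

open Real Complex Pool.Agent.Lib.MP_5a3ebe_gt

lemma aux (L : ℝ) (hL : 0 < L) (β T : ℝ → ℂ)
    (hβ : ∀ s, HasDerivAt β (T s) s) (hT : ∀ s, ‖T s‖ = 1)
    (hlip : ∀ s t, ‖T s - T t‖ ≤ |s - t|) (hper : ∀ s, β (s + L) = β s)
    (γ : Circle → ℂ) (hγ : Continuous γ) (hinj : Function.Injective γ)
    (φ : ℝ → ℝ) (hφ : Continuous φ) (hdeg : ∀ t, φ (t + 2 * π) = φ t + L)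
    (hclose : ∀ t, ‖γ (Circle.exp t) - β (φ t)‖ ≤ √2 - 1) :
    ∃ z w : ℂ, w ≠ 0 ∧ z ∈ Set.range γ ∧ z + w ∈ Set.range γ ∧
      z + w + Complex.I * w ∈ Set.range γ ∧ z + Complex.I * w ∈ Set.range γ := by
  have hpi := pi_pos
  have cT : Continuous T := (LipschitzWith.of_dist_le_mul (K := 1) fun s t => by
    simpa [dist_eq_norm] using hlip s t).continuous
  have pT : ∀ s, T (s + L) = T s := fun s => by
    have h1 := (hβ (s + L)).comp_add_const s L
    simp only [hper] at h1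
    exact h1.unique (hβ s)
  obtain ⟨ψ, c, cψ, eψ, pψ⟩ := exists_angle cT hT pT
  have h : Arc β ψ := ⟨fun s => by rw [eψ]; exact hβ s,
    lift_lip cψ fun s t => by rw [eψ, eψ]; exact hlip s t⟩
  have hL2 := h.period_ge hL (by simpa using hper 0)
  have cg : Continuous fun t : ℝ => γ (Circle.exp (2 * π * t)) := by fun_prop
  have per : ∀ t : ℝ, γ (Circle.exp (2 * π * (t + 1))) = γ (Circle.exp (2 * π * t)) := by
    intro t; rw [mul_add, mul_one, Circle.periodic_exp]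
  obtain ⟨x, y, cx, cy, hxy⟩ := h.normal_coords le_rfl cg (φ := fun t => φ (2 * π * t))
    (by fun_prop) fun t => hclose _
  have q0 : √2 ≤ 1.4143 := Real.sqrt_le_iff.2 ⟨by norm_num, by norm_num⟩
  have pxy : ∀ t, x (t + 1) = x t + L ∧ y (t + 1) = y t := by
    intro t
    obtain ⟨a1, a2, a3⟩ := hxy (t + 1)
    obtain ⟨b1, b2, b3⟩ := hxy t
    simp only [mul_add, mul_one, hdeg] at a1
    refine h.tube_inj (a2.trans (by linarith)) ?_ ?_
    · rw [abs_le] at a1 b1 ⊢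
      constructor <;> linarith [a1.1, a1.2, b1.1, b1.2]
    · rw [← a3, per, b3, hper, eψ, eψ, pT]
  obtain ⟨z, w, hw, m1, m2, m3, m4⟩ := tube_square h hL2 pψ le_rfl cg cx cy (fun t => (pxy t).1)
    (fun t => (pxy t).2) per (fun t => (hxy t).2.1) (fun t => (hxy t).2.2) (by
      intro s t l1 l2 e
      obtain ⟨m, hm⟩ := Circle.exp_eq_exp.1 (hinj e)
      have e1 : s = t + m := by
        have : 2 * π * s = 2 * π * (t + m) := by rw [hm]; ring
        exact mul_left_cancel₀ (by positivity) this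
      have k1 : (m : ℝ) ≤ 0 := by linarith
      have k2 : (-1 : ℝ) < m := by linarith
      have : m = 0 := by
        have k1 : m ≤ 0 := by exact_mod_cast k1
        have k2 : -1 < m := by exact_mod_cast k2
        omega
      simpa [this] using e1)
  have sub : Set.range (fun t : ℝ => γ (Circle.exp (2 * π * t))) ⊆ Set.range γ := by
    rintro _ ⟨t, rfl⟩; exact ⟨_, rfl⟩
  exact ⟨z, w, hw, sub m1, sub m2, sub m3, sub m4⟩

lemma aux2 (κ L : ℝ) (hκ : 0 < κ) (hL : 0 < L) (β T : ℝ → ℂ)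
    (hβ : ∀ s, HasDerivAt β (T s) s) (hT : ∀ s, ‖T s‖ = 1)
    (hlip : ∀ s t, ‖T s - T t‖ ≤ κ * |s - t|) (hper : ∀ s, β (s + L) = β s)
    (γ : Circle → ℂ) (hγ : Continuous γ) (hinj : Function.Injective γ)
    (φ : ℝ → ℝ) (hφ : Continuous φ) (hdeg : ∀ t, φ (t + 2 * π) = φ t + L)
    (hclose : ∀ t, ‖γ (Circle.exp t) - β (φ t)‖ ≤ (√2 - 1) / κ) :
    ∃ z w : ℂ, w ≠ 0 ∧ z ∈ Set.range γ ∧ z + w ∈ Set.range γ ∧
      z + w + Complex.I * w ∈ Set.range γ ∧ z + Complex.I * w ∈ Set.range γ := by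
  have k0 : (κ : ℂ) ≠ 0 := by exact_mod_cast hκ.ne'
  obtain ⟨z, w, hw, m1, m2, m3, m4⟩ := aux (κ * L) (by positivity) (fun s => κ * β (s / κ))
    (fun s => T (s / κ))
    (fun s => (((hβ (s / κ)).scomp s ((hasDerivAt_id s).div_const κ)).const_mul
      (κ : ℂ)).congr_deriv (by simp; field_simp))
    (fun s => hT _)
    (fun s t => (hlip _ _).trans (by rw [← sub_div, abs_div, abs_of_pos hκ]; field_simp; rfl))
    (fun s => by rw [add_div, mul_div_cancel_left₀ _ hκ.ne', hper])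
    (fun u => κ * γ u) (by fun_prop) (fun a b e => hinj (mul_left_cancel₀ k0 e))
    (fun t => κ * φ t) (by fun_prop) (fun t => by rw [hdeg, mul_add])
    (fun t => by
      rw [mul_div_cancel_left₀ _ hκ.ne', ← mul_sub, norm_mul, Complex.norm_real,
        Real.norm_eq_abs, abs_of_pos hκ]
      have := hclose t
      rwa [le_div_iff₀ hκ, mul_comm] at this)
  have back : ∀ {a b : ℂ}, a ∈ Set.range (fun u => κ * γ u) → a = κ * b → b ∈ Set.range γ := by
    rintro a b ⟨u, rfl⟩ e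
    exact ⟨u, mul_left_cancel₀ k0 e⟩
  exact ⟨z / κ, w / κ, div_ne_zero hw k0, back m1 (by field_simp), back m2 (by field_simp),
    back m3 (by field_simp), back m4 (by field_simp)⟩

/-- A Jordan curve that stays within `(√2 - 1)/κ` of a closed unit speed curve of curvature at
most `κ`, through a correspondence of nonzero degree, has an inscribed square. -/
theorem result (κ L : ℝ) (hκ : 0 < κ) (hL : L ≠ 0) (β T : ℝ → ℂ)
    (hβ : ∀ s, HasDerivAt β (T s) s) (hT : ∀ s, ‖T s‖ = 1)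
    (hlip : ∀ s t, ‖T s - T t‖ ≤ κ * |s - t|) (hper : ∀ s, β (s + L) = β s)
    (γ : Circle → ℂ) (hγ : Continuous γ) (hinj : Function.Injective γ)
    (φ : ℝ → ℝ) (hφ : Continuous φ) (hdeg : ∀ t, φ (t + 2 * Real.pi) = φ t + L)
    (hclose : ∀ t, ‖γ (Circle.exp t) - β (φ t)‖ ≤ (√2 - 1) / κ) :
    ∃ z w : ℂ, w ≠ 0 ∧ z ∈ Set.range γ ∧ z + w ∈ Set.range γ ∧
      z + w + Complex.I * w ∈ Set.range γ ∧ z + Complex.I * w ∈ Set.range γ := by
  rcases hL.lt_or_gt with h | h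
  · obtain ⟨z, w, hw, m1, m2, m3, m4⟩ := aux2 κ (-L) hκ (by linarith) β T hβ hT hlip
      (fun s => by rw [← hper (s + -L)]; simp) (fun u => γ u⁻¹) (by fun_prop)
      (fun a b e => inv_injective (hinj e)) (fun t => φ (-t)) (by fun_prop)
      (fun t => by
        have := hdeg (-(t + 2 * π))
        rw [show -(t + 2 * π) + 2 * π = -t by ring] at this
        linarith)
      (fun t => by rw [← Circle.exp_neg]; exact hclose _)
    have sub : Set.range (fun u : Circle => γ u⁻¹) ⊆ Set.range γ := by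
      rintro _ ⟨t, rfl⟩; exact ⟨_, rfl⟩
    exact ⟨z, w, hw, sub m1, sub m2, sub m3, sub m4⟩
  · exact aux2 κ L hκ h β T hβ hT hlip hper γ hγ hinj φ hφ hdeg hclose

end Pool.Agent.Results.MP_5a3ebe_gt.CurvatureTube
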