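import Pool.Agent.Lib.MP_5a3ebe_gt.TabAll

/-!
The table conjecture on the 2-sphere fails for every square that is not inscribed in a great circle.
`E` is Euclidean 3-space; `A B C D` are consecutive vertices of a square on its unit sphere (parallelogram,
right angle at `A`, equal positive sides); `A + C ≠ 0` says that the centre of the square is not the centre
of the sphere.
-/

namespace Pool.Agent.Results.MP_5a3ebe_gt.TableSphere

theorem result {E : Type} [NormedAddCommGroup E] [InnerProductSpace ℝ E] (hE : Module.finrank ℝ E = 3)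
    (A B C D : E) (hA : ‖A‖ = 1) (hB : ‖B‖ = 1) (hC : ‖C‖ = 1) (hD : ‖D‖ = 1)
    (hpar : B - A = C - D) (hperp : inner ℝ (B - A) (D - A) = 0) (hside : ‖B - A‖ = ‖D - A‖)
    (hne : A ≠ B) (hcen : A + C ≠ 0) :
    ∃ h : E → ℝ, ContDiff ℝ ⊤ h ∧
      ∀ ρ : E ≃ₗᵢ[ℝ] E, ¬ (h (ρ A) = h (ρ B) ∧ h (ρ B) = h (ρ C) ∧ h (ρ C) = h (ρ D)) := by
  have : FiniteDimensional ℝ E := Module.finite_of_finrank_eq_succ hE
  let φ : E ≃ₗᵢ[ℝ] EuclideanSpace ℝ (Fin 3) := ((stdOrthonormalBasis ℝ E).reindex (finCongr hE)).repr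
  obtain ⟨h, h1, h2⟩ :=
    Pool.Agent.Lib.MP_5a3ebe_gt.Tab.table_of_wit Pool.Agent.Lib.MP_5a3ebe_gt.Tab.wit_all
      (φ A) (φ B) (φ C) (φ D) (by rw [φ.norm_map, hA]) (by rw [φ.norm_map, hB]) (by rw [φ.norm_map, hC])
      (by rw [φ.norm_map, hD]) (by rw [← map_sub, ← map_sub, hpar])
      (by rw [← map_sub, ← map_sub, φ.inner_map_map, hperp])
      (by rw [← map_sub, ← map_sub, φ.norm_map, φ.norm_map, hside]) (φ.injective.ne hne)
      (by rw [← map_add]; exact fun e => hcen (φ.map_eq_zero_iff.1 e))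
  refine ⟨fun v => h (φ v), h1.comp φ.contDiff, fun ρ e => h2 (φ.symm.trans (ρ.trans φ)) ?_⟩
  simpa using e

end Pool.Agent.Results.MP_5a3ebe_gt.TableSphere
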