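import Pool.Agent.Lib.MP_5a3ebe_gt.GridMain

namespace Pool.Agent.Results.MP_5a3ebe_gt.TinySquaresGrid

/-- Grid Jordan curves inside an `n × n` box that surround an open square of side about `n / 2`
while every inscribed square is arbitrarily small in proportion. -/
theorem result (ε : ℝ) (hε : 0 < ε) :
    ∃ (n m a b : ℕ) (γ : Circle → ℂ), Continuous γ ∧ Function.Injective γ ∧
      (∀ z ∈ Set.range γ, ∃ p q : ℤ, ∃ u ∈ ({1, Complex.I} : Set ℂ),
        z ∈ segment ℝ (p + q * Complex.I : ℂ) (p + q * Complex.I + u) ∧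
        segment ℝ (p + q * Complex.I : ℂ) (p + q * Complex.I + u) ⊆ Set.range γ) ∧
      Set.range γ ⊆ Set.Icc (0 : ℝ) n ×ℂ Set.Icc (0 : ℝ) n ∧ 0 < m ∧ (n : ℝ) ≤ (2 + ε) * m ∧
      (∃ c : ℂ, Bornology.IsBounded (connectedComponentIn (Set.range γ)ᶜ c) ∧
        Set.Ioo (a : ℝ) (a + m) ×ℂ Set.Ioo (b : ℝ) (b + m) ⊆
          connectedComponentIn (Set.range γ)ᶜ c) ∧
      ∀ z w : ℂ, z ∈ Set.range γ → z + w ∈ Set.range γ →
        z + w + Complex.I * w ∈ Set.range γ → z + Complex.I * w ∈ Set.range γ → ‖w‖ ≤ ε * m :=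
  Pool.Agent.Lib.MP_5a3ebe_gt.Grid.main ε hε

end Pool.Agent.Results.MP_5a3ebe_gt.TinySquaresGrid
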